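import Pool.Agent.H25.LF.Targets

/-!
# MP_04ff0f_nt, board lpf, row LLN: prime powers are negligible
-/

set_option autoImplicit false

open Finset Real ArithmeticFunction

namespace Pool.Agent.H13.LF

open Pool.Agent.H25.LF

theorem pf_LLN : T_LLN := by
  intro y d hy
  have hy0 : 0 ≤ Real.log y := Real.log_nonneg hy
  unfold LL
  rw [← Finset.sum_filter_add_sum_filter_not ((Icc 1 ⌊y⌋₊).filter (Dv d)) Nat.Prime]
  refine add_le_add ?_ ?_
  · have h1 : ∀ n ∈ ((Icc 1 ⌊y⌋₊).filter (Dv d)).filter Nat.Prime, Λ n ≤ Real.log y := by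
      intro n hn
      obtain ⟨hn1, hn2⟩ := Finset.mem_filter.1 hn
      have hn3 := Finset.mem_Icc.1 (Finset.mem_filter.1 hn1).1
      have hn4 : (n : ℝ) ≤ y := (Nat.le_floor_iff (by linarith)).1 hn3.2
      rw [vonMangoldt_apply_prime hn2]
      exact Real.log_le_log (by exact_mod_cast hn3.1) hn4
    refine (Finset.sum_le_card_nsmul _ _ _ h1).trans (le_of_eq ?_)
    rw [nsmul_eq_mul, mul_comm]
    congr 1
    unfold NN PR
    rw [Finset.filter_comm]
  · rw [Finset.filter_filter]
    have h2 := Chebyshev.psi_sub_theta_le hy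
    rw [Chebyshev.psi_sub_theta_eq_sum_not_prime] at h2
    refine le_trans ?_ h2
    refine Finset.sum_le_sum_of_subset_of_nonneg ?_ fun n _ _ => vonMangoldt_nonneg
    intro n hn
    obtain ⟨hn1, -, hn2⟩ := Finset.mem_filter.1 hn
    rw [Finset.mem_filter, Finset.mem_Ioc]
    have := Finset.mem_Icc.1 hn1
    exact ⟨⟨this.1, this.2⟩, hn2⟩

end Pool.Agent.H13.LF
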